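import Mathlib
import Pool.Agent.X199.Schw

/-!
# Multi-reflexive free locally convex spaces are Schwartz spaces
-/

open Topology Filter Set

universe u

namespace Pool.Agent.Results.MP_c73427_an.MultiReflexiveSchwartz

open Pool.Agent.X199.BG Pool.Agent.X199.Schw

/-- **Main theorem.**  For every Tychonoff space `X` a free locally convex space `L(X)` exists, and
if `L(X)` is multi-reflexive then it is a Schwartz space. -/
theorem result (X : Type u) [TopologicalSpace X] [T35Space X] :
    (∃ (L : Type u) (_ : AddCommGroup L) (_ : Module ℝ L) (_ : TopologicalSpace L) (δ : X → L),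
      IsFreeLCS X L δ) ∧
    ∀ (L : Type u) [AddCommGroup L] [Module ℝ L] [TopologicalSpace L] (δ : X → L),
      IsFreeLCS X L δ → MultiReflexive L → Schwartz L :=
  ⟨exists_free X, fun L _ _ _ δ h hL => schwartz_of_multiReflexive h hL⟩

end Pool.Agent.Results.MP_c73427_an.MultiReflexiveSchwartz
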